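import Mathlib
import Pool.Agent.Helper70.RN.Sheet

/-! # Row BND of `Pool/Agent/Helper70/RN/Sheet.lean` -/

set_option autoImplicit false

namespace Pool.Helper70.RN.S25

open Pool.Helper70.RN

/-- the parameters -/
abbrev Tp : Type := (Fin 4 → ℕ) × ℕ

/-- `f` is at most `C m ^ k` on the box of size `m` -/
def BO (k : ℕ) (f : ℕ → Tp → ℤ) : Prop :=
  ∃ C : ℤ, 0 ≤ C ∧ ∀ m : ℕ, 1 ≤ m → ∀ T ∈ Box m, |f m T| ≤ C * (m : ℤ) ^ k

theorem BO.mono {j k : ℕ} {f : ℕ → Tp → ℤ} (h : BO j f) (hjk : j ≤ k) : BO k f := by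
  obtain ⟨C, hC, H⟩ := h
  refine ⟨C, hC, fun m hm T hT => (H m hm T hT).trans ?_⟩
  have hm1 : (1 : ℤ) ≤ (m : ℤ) := by exact_mod_cast hm
  exact mul_le_mul_of_nonneg_left (pow_le_pow_right₀ hm1 hjk) hC

theorem BO.const (k : ℕ) (c : ℤ) : BO k (fun _ _ => c) := by
  refine ⟨|c|, abs_nonneg c, fun m hm T _ => ?_⟩
  have hm1 : (1 : ℤ) ≤ (m : ℤ) ^ k := one_le_pow₀ (by exact_mod_cast hm)
  have := mul_le_mul_of_nonneg_left hm1 (abs_nonneg c)
  linarith

theorem BO.add {k : ℕ} {f g : ℕ → Tp → ℤ} (hf : BO k f) (hg : BO k g) :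
    BO k (fun m T => f m T + g m T) := by
  obtain ⟨C, hC, H⟩ := hf
  obtain ⟨D, hD, G⟩ := hg
  refine ⟨C + D, by linarith, fun m hm T hT => ?_⟩
  have h1 := H m hm T hT
  have h2 := G m hm T hT
  have h3 := abs_add_le (f m T) (g m T)
  rw [add_mul]
  linarith

theorem BO.neg {k : ℕ} {f : ℕ → Tp → ℤ} (hf : BO k f) : BO k (fun m T => -(f m T)) := by
  obtain ⟨C, hC, H⟩ := hf
  refine ⟨C, hC, fun m hm T hT => ?_⟩
  rw [abs_neg]
  exact H m hm T hT

theorem BO.congr {k : ℕ} {f g : ℕ → Tp → ℤ} (h : BO k f) (e : ∀ m T, g m T = f m T) :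
    BO k g := by
  have : g = f := funext fun m => funext fun T => e m T
  rw [this]
  exact h

theorem BO.sub {k : ℕ} {f g : ℕ → Tp → ℤ} (hf : BO k f) (hg : BO k g) :
    BO k (fun m T => f m T - g m T) :=
  (hf.add hg.neg).congr (fun m T => sub_eq_add_neg _ _)

theorem BO.mul {j k l : ℕ} {f g : ℕ → Tp → ℤ} (hf : BO j f) (hg : BO k g)
    (hl : j + k ≤ l) : BO l (fun m T => f m T * g m T) := by
  apply BO.mono _ hl
  obtain ⟨C, hC, H⟩ := hf
  obtain ⟨D, hD, G⟩ := hg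
  refine ⟨C * D, mul_nonneg hC hD, fun m hm T hT => ?_⟩
  have h1 := H m hm T hT
  have h2 := G m hm T hT
  rw [abs_mul, pow_add]
  calc |f m T| * |g m T| ≤ (C * (m : ℤ) ^ j) * (D * (m : ℤ) ^ k) :=
        mul_le_mul h1 h2 (abs_nonneg _) (le_trans (abs_nonneg _) h1)
    _ = C * D * ((m : ℤ) ^ j * (m : ℤ) ^ k) := by ring

theorem BO.cmul {k : ℕ} {f : ℕ → Tp → ℤ} (c : ℤ) (hf : BO k f) : BO k (fun m T => c * f m T) :=
  (BO.const 0 c).mul hf (by omega)

theorem bo_div {k : ℕ} {f g : ℕ → Tp → ℤ} (c : ℤ) (hc : 1 ≤ c) (hf : BO k f)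
    (h : ∀ m T, c * g m T = f m T) : BO k g := by
  obtain ⟨C, hC, H⟩ := hf
  refine ⟨C, hC, fun m hm T hT => ?_⟩
  have h1 := H m hm T hT
  rw [← h m T, abs_mul, abs_of_nonneg (by linarith : (0 : ℤ) ≤ c)] at h1
  have h2 : 1 * |g m T| ≤ c * |g m T| := mul_le_mul_of_nonneg_right hc (abs_nonneg _)
  linarith

/-- affine functions of the indices -/
theorem bo_lin (c M : ℤ) (i : Fin 4) : BO 3 (fun _ T => c + M * (T.1 i : ℤ)) := by
  have h : BO 3 (fun _ T => (T.1 i : ℤ)) := by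
    refine ⟨1, by norm_num, fun m hm T hT => ?_⟩
    unfold Box at hT
    rw [Finset.mem_product, Fintype.mem_piFinset] at hT
    have h1 := Finset.mem_range.1 (hT.1 i)
    rw [abs_of_nonneg (Int.natCast_nonneg _), one_mul]
    exact_mod_cast h1.le
  exact (BO.const 3 c).add (BO.cmul M h)

theorem bo_zlin (c M : ℤ) : BO 8 (fun m T => c + M * ((m : ℤ) ^ 8 + (T.2 : ℤ))) := by
  have h1 : BO 8 (fun m _ => ((m : ℤ) ^ 8)) := by
    refine ⟨1, by norm_num, fun m hm T hT => ?_⟩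
    rw [abs_of_nonneg (by positivity), one_mul]
  have h2 : BO 8 (fun _ T => (T.2 : ℤ)) := by
    refine ⟨1, by norm_num, fun m hm T hT => ?_⟩
    unfold Box at hT
    rw [Finset.mem_product] at hT
    have h1 := Finset.mem_range.1 hT.2
    rw [abs_of_nonneg (Int.natCast_nonneg _), one_mul]
    exact_mod_cast h1.le
  exact (BO.const 8 c).add (BO.cmul M (h1.add h2))

section
variable (v : Tp → Fin 4 → ℤ) (hv : ∀ i, BO 3 (fun _ T => v T i))
include hv

theorem bo_n1 : BO 6 (fun _ T => n1 (v T)) := by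
  refine (((BO.cmul 4 ((hv 1).mul (hv 1) (by omega))).add
    (BO.cmul 4 ((hv 2).mul (hv 2) (by omega)))).add ((hv 3).mul (hv 3) (by omega))).congr
    (fun m T => ?_)
  unfold n1
  ring

theorem bo_n2 : BO 6 (fun _ T => n2 (v T)) := by
  refine ((((hv 1).mul (hv 1) (by omega)).add ((hv 2).mul (hv 2) (by omega))).add
    (BO.cmul 16 ((hv 3).mul (hv 3) (by omega)))).congr (fun m T => ?_)
  unfold n2
  ring

theorem bo_sq (i : Fin 4) : BO 6 (fun _ T => v T i * v T i) := (hv i).mul (hv i) (by omega)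

theorem bo_m1 : BO 12 (fun _ T => m1 (v T)) := by
  have a := bo_sq v hv 1
  have b := bo_sq v hv 2
  have c := bo_sq v hv 3
  refine (((BO.cmul 16 (a.mul b (by omega))).add (BO.cmul 4 (a.mul c (by omega)))).add
    (BO.cmul 4 (b.mul c (by omega)))).congr (fun m T => ?_)
  unfold m1
  ring

theorem bo_m2 : BO 12 (fun _ T => m2 (v T)) := by
  have a := bo_sq v hv 1
  have b := bo_sq v hv 2
  have c := bo_sq v hv 3
  refine (((a.mul b (by omega)).add (BO.cmul 16 (a.mul c (by omega)))).add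
    (BO.cmul 16 (b.mul c (by omega)))).congr (fun m T => ?_)
  unfold m2
  ring

theorem bo_pr : BO 9 (fun _ T => pr (v T)) := by
  refine (BO.cmul 4 (((hv 1).mul (hv 2) (l := 6) (by omega)).mul (hv 3) (by omega))).congr
    (fun m T => ?_)
  unfold pr
  ring

theorem bo_cc : BO 6 (fun _ T => cc (v T)) :=
  ((bo_n1 v hv).sub (bo_n2 v hv)).congr (fun _ _ => rfl)

theorem bo_e2 : BO 6 (fun _ T => e2 (v T)) := by
  refine ((BO.cmul (-4) (bo_sq v hv 0)).sub
    (BO.cmul 2 ((bo_n1 v hv).add (bo_n2 v hv)))).congr (fun m T => ?_)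
  unfold e2
  ring

theorem bo_e3 : BO 9 (fun _ T => e3 (v T)) := by
  refine ((BO.cmul 4 ((hv 0).mul (bo_cc v hv) (by omega))).add
    (BO.cmul 16 (bo_pr v hv))).congr (fun m T => ?_)
  unfold e3
  ring

theorem bo_g0 : BO 12 (fun _ T => g0 (v T)) := by
  have a := bo_sq v hv 0
  refine ((((BO.cmul 2 (a.mul a (by omega))).sub
    (BO.cmul 2 (a.mul ((bo_n1 v hv).add (bo_n2 v hv)) (by omega)))).add
    (BO.cmul 2 ((bo_n1 v hv).mul (bo_n2 v hv) (by omega)))).sub
    (BO.cmul 4 ((bo_m1 v hv).add (bo_m2 v hv)))).congr (fun m T => ?_)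
  unfold g0
  ring

theorem bo_l1 : BO 9 (fun _ T => l1 (v T)) := by
  refine ((BO.cmul 8 ((bo_sq v hv 0).mul (hv 0) (by omega))).sub
    (BO.cmul 4 ((hv 0).mul ((bo_n1 v hv).add (bo_n2 v hv)) (by omega)))).congr
    (fun m T => ?_)
  unfold l1
  ring

theorem bo_d0 : BO 12 (fun _ T => d0 (v T)) := by
  have a := bo_sq v hv 0
  have b := bo_cc v hv
  have c := bo_pr v hv
  have d := bo_n1 v hv
  have e := bo_n2 v hv
  refine (((((BO.cmul (-2) (a.mul b (by omega))).add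
    (BO.cmul 16 ((hv 0).mul c (by omega)))).add (d.mul d (by omega))).sub
    (e.mul e (by omega))).sub (BO.cmul 4 ((bo_m1 v hv).sub (bo_m2 v hv)))).congr
    (fun m T => ?_)
  unfold d0
  ring

theorem bo_h3 : BO 15 (fun _ T => h3 (v T)) := by
  have a := bo_sq v hv 0
  have b := bo_cc v hv
  refine (((((BO.cmul (-16) ((hv 0).mul (bo_d0 v hv) (by omega))).add
    (BO.cmul 4 (b.mul (bo_l1 v hv) (by omega)))).sub
    (BO.cmul 16 (((bo_e2 v hv).mul (hv 0) (l := 9) (by omega)).mul b (by omega)))).add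
    (BO.cmul 32 ((bo_e3 v hv).mul a (by omega)))).sub
    (BO.cmul 256 ((a.mul (hv 0) (l := 9) (by omega)).mul b (by omega)))).congr
    (fun m T => ?_)
  unfold h3
  ring

theorem bo_h2 : BO 18 (fun _ T => h2 (v T)) := by
  have a := bo_sq v hv 0
  have b := bo_cc v hv
  have bb : BO 12 (fun _ T => cc (v T) * cc (v T)) := b.mul b (by omega)
  refine (((((bo_l1 v hv).mul (bo_l1 v hv) (by omega)).sub
    (BO.cmul 4 (b.mul (bo_d0 v hv) (by omega)))).sub
    (BO.cmul 2 ((((bo_e2 v hv).mul bb (by omega)).sub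
      (BO.cmul 8 (((bo_e3 v hv).mul (hv 0) (l := 12) (by omega)).mul b (by omega)))).add
      (BO.cmul 16 ((bo_g0 v hv).mul a (by omega)))))).sub
    (BO.cmul 96 (a.mul bb (by omega)))).congr (fun m T => ?_)
  unfold h2
  ring

theorem bo_h1 : BO 21 (fun _ T => h1 (v T)) := by
  have b := bo_cc v hv
  have bb : BO 12 (fun _ T => cc (v T) * cc (v T)) := b.mul b (by omega)
  refine (((BO.cmul (-2) ((bo_l1 v hv).mul (bo_d0 v hv) (by omega))).sub
    (BO.cmul 2 ((((bo_e3 v hv).mul bb (by omega)).neg).add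
      (BO.cmul 8 (((bo_g0 v hv).mul (hv 0) (l := 15) (by omega)).mul b (by omega)))))).sub
    (BO.cmul 16 ((hv 0).mul (bb.mul b (l := 18) (by omega)) (by omega)))).congr
    (fun m T => ?_)
  unfold h1
  ring

theorem bo_h0 : BO 24 (fun _ T => h0 (v T)) := by
  have b := bo_cc v hv
  have bb : BO 12 (fun _ T => cc (v T) * cc (v T)) := b.mul b (by omega)
  refine ((((bo_d0 v hv).mul (bo_d0 v hv) (by omega)).sub
    (BO.cmul 2 ((bo_g0 v hv).mul bb (by omega)))).sub (bb.mul bb (by omega))).congr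
    (fun m T => ?_)
  unfold h0
  ring

variable (t : ℕ → Tp → ℤ) (ht : BO 16 t)
include ht

theorem bo_q2 : BO 22 (fun m T => q2 (v T) (t m T)) := by
  refine ((BO.cmul 2 ((bo_e2 v hv).mul ht (by omega))).add
    ((bo_h2 v hv).mono (by omega))).congr (fun m T => ?_)
  unfold q2
  ring

theorem bo_q1 : BO 25 (fun m T => q1 (v T) (t m T)) := by
  refine ((BO.cmul (-2) ((bo_e3 v hv).mul ht (by omega))).add
    ((bo_h1 v hv).mono (by omega))).congr (fun m T => ?_)
  unfold q1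
  ring

theorem bo_q0 : BO 32 (fun m T => q0 (v T) (t m T)) := by
  refine (((ht.mul ht (by omega)).add (BO.cmul 2 ((bo_g0 v hv).mul ht (by omega)))).add
    ((bo_h0 v hv).mono (by omega))).congr (fun m T => ?_)
  unfold q0
  ring

theorem bo_I : BO 48 (fun m T => fI (v T) (t m T)) := by
  have a4 : BO 16 (fun m T => q4 (t m T)) := (BO.cmul 4 ht).congr (fun _ _ => rfl)
  refine (((BO.cmul 12 (a4.mul (bo_q0 v hv t ht) (by omega))).sub
    (BO.cmul 3 ((bo_h3 v hv).mul (bo_q1 v hv t ht) (by omega)))).add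
    ((bo_q2 v hv t ht).mul (bo_q2 v hv t ht) (by omega))).congr (fun m T => ?_)
  unfold fI q3
  ring

theorem bo_J : BO 72 (fun m T => fJ (v T) (t m T)) := by
  have a4 : BO 16 (fun m T => q4 (t m T)) := (BO.cmul 4 ht).congr (fun _ _ => rfl)
  have a3 := bo_h3 v hv
  have a2 := bo_q2 v hv t ht
  have a1 := bo_q1 v hv t ht
  have a0 := bo_q0 v hv t ht
  refine (((((BO.cmul 72 ((a4.mul a2 (l := 38) (by omega)).mul a0 (by omega))).add
    (BO.cmul 9 ((a3.mul a2 (l := 37) (by omega)).mul a1 (by omega)))).sub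
    (BO.cmul 27 (a4.mul (a1.mul a1 (l := 50) (by omega)) (by omega)))).sub
    (BO.cmul 27 (a0.mul (a3.mul a3 (l := 30) (by omega)) (by omega)))).sub
    (BO.cmul 2 (a2.mul (a2.mul a2 (l := 44) (by omega)) (by omega)))).congr (fun m T => ?_)
  unfold fJ q3
  ring

end

theorem bo_u (i : Fin 4) : BO 3 (fun _ T => uu T.1 i) :=
  (bo_lin (ub i) MM i).congr (fun _ _ => rfl)

theorem bo_t : BO 16 (fun m T => (ww m T).2 ^ 2) := by
  have h : BO 8 (fun m T => (ww m T).2) := (bo_zlin 15 MM).congr (fun _ _ => rfl)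
  exact (h.mul h (by omega)).congr (fun m T => sq _)

theorem cong_gen (M c : ℤ) (n : ℤ) : M ∣ c + M * n - c := ⟨n, by ring⟩

theorem cong_ww (m : ℕ) (T : Tp) : Cong (ww m T) :=
  ⟨fun i => cong_gen MM (ub i) _, cong_gen MM 15 _⟩

end Pool.Helper70.RN.S25

namespace Pool.Helper70.RN

open Pool.Helper70.RN.S25

/-- Row BND. -/
theorem st_BND (hR : ST_REL) : ST_BND := by
  obtain ⟨C, hC, H⟩ := bo_div (g := fun m T => cA (ww m T)) 48 (by norm_num)
    (bo_I (fun T => uu T.1) bo_u _ bo_t).neg (fun m T => (hR (ww m T) (cong_ww m T)).1)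
  obtain ⟨D, hD, G⟩ := bo_div (g := fun m T => cB (ww m T)) 1728 (by norm_num)
    (bo_J (fun T => uu T.1) bo_u _ bo_t).neg (fun m T => (hR (ww m T) (cong_ww m T)).2.1)
  refine ⟨C + D + 1, by linarith, fun m hm T hT => ?_⟩
  refine ⟨(H m hm T hT).trans (mul_le_mul_of_nonneg_right (by linarith) (by positivity)),
    (G m hm T hT).trans (mul_le_mul_of_nonneg_right (by linarith) (by positivity))⟩

end Pool.Helper70.RN
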