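import Mathlib
import Pool.Agent.Helper70.RN.Sheet
import Pool.Agent.Helper34.R9.PR2B

/-! # Row PR2 of `Pool/Agent/Helper70/RN/Sheet.lean` (compare `Helper34/R9/PR2B.lean`) -/

set_option autoImplicit false

namespace Pool.Helper70.RN

namespace S25

theorem MM_pos : 0 < MM := by
  have := Nat.factorial_pos QQ
  unfold MM
  positivity

/-- `- e₂` as a sum of squares -/
theorem e2_form (u : Fin 4 → ℤ) :
    (2 * u 0) ^ 2 + 10 * (u 1) ^ 2 = -(e2 u) - 10 * u 2 ^ 2 - 34 * u 3 ^ 2 := by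
  unfold e2 n1 n2
  ring

theorem lin_bound (c M : ℤ) (hM : 0 < M) (hc : |c| ≤ 20) (m a : ℕ) (hm : 1 ≤ m)
    (ha : a < m ^ 3) : |c + M * (a : ℤ)| ≤ (20 + M) * (m : ℤ) ^ 3 := by
  have h2 : (a : ℤ) ≤ (m : ℤ) ^ 3 := by exact_mod_cast ha.le
  have h4 : (0 : ℤ) ≤ a := Int.natCast_nonneg _
  have h6 : (1 : ℤ) ≤ (m : ℤ) ^ 3 := one_le_pow₀ (by exact_mod_cast hm)
  refine (abs_add_le _ _).trans ?_
  rw [abs_mul, abs_of_pos hM, abs_of_nonneg h4]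
  have h8 := mul_le_mul_of_nonneg_left h2 hM.le
  nlinarith

theorem ub_le (i : Fin 4) : |ub i| ≤ 20 := by
  fin_cases i <;> decide

theorem uu_bound (m : ℕ) (hm : 1 ≤ m) (a : Fin 4 → ℕ) (ha : ∀ i, a i < m ^ 3) (i : Fin 4) :
    |uu a i| ≤ (20 + MM) * (m : ℤ) ^ 3 := by
  have h := lin_bound (ub i) MM MM_pos (ub_le i) m (a i) hm (ha i)
  unfold uu
  exact h

theorem sq_bound (x y c n M : ℤ) (hx : |x| ≤ c * n) (hy : |y| ≤ c * n) (hM : M = 14 * c ^ 2) :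
    (2 * x) ^ 2 + 10 * y ^ 2 ≤ M * n ^ 2 := by
  have g0 := abs_le.1 hx
  have g1 := abs_le.1 hy
  have k3 := sq_le_sq' g0.1 g0.2
  have k4 := sq_le_sq' g1.1 g1.2
  have k5 : 4 * (c * n) ^ 2 + 10 * (c * n) ^ 2 = M * n ^ 2 := by
    rw [hM]
    ring
  have k6 : (2 * x) ^ 2 = 4 * x ^ 2 := by ring
  rw [k6, ← k5]
  linarith

theorem icc_bound (K : ℤ) (m : ℕ) (hm : 1 ≤ m) :
    ((Finset.Icc (-(K * (m : ℤ) ^ 2)) (K * (m : ℤ) ^ 2)).card : ℝ) ≤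
      (2 * |(K : ℝ)| + 1) * (m : ℝ) ^ 2 := by
  have hm1 : (1 : ℝ) ≤ m := by exact_mod_cast hm
  rw [Int.card_Icc]
  have hm2 : (1 : ℝ) ≤ (m : ℝ) ^ 2 := one_le_pow₀ hm1
  have hK := le_abs_self (K : ℝ)
  have hK0 := abs_nonneg (K : ℝ)
  rcases le_or_gt 0 (K * (m : ℤ) ^ 2 + 1 - -(K * (m : ℤ) ^ 2)) with h | h
  · have h2 : (((K * (m : ℤ) ^ 2 + 1 - -(K * (m : ℤ) ^ 2)).toNat : ℤ) : ℝ) =
        ((K * (m : ℤ) ^ 2 + 1 - -(K * (m : ℤ) ^ 2) : ℤ) : ℝ) := by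
      rw [Int.toNat_of_nonneg h]
    have h3 : (((K * (m : ℤ) ^ 2 + 1 - -(K * (m : ℤ) ^ 2)).toNat : ℕ) : ℝ) =
        ((K * (m : ℤ) ^ 2 + 1 - -(K * (m : ℤ) ^ 2) : ℤ) : ℝ) := by
      rw [← h2]
      exact (Int.cast_natCast _).symm
    rw [h3]
    push_cast
    nlinarith
  · rw [Int.toNat_of_nonpos h.le]
    push_cast
    positivity

theorem rpow_third (m : ℕ) (ε : ℝ) : ((m ^ 3 : ℕ) : ℝ) ^ (ε / 3) = (m : ℝ) ^ ε := by
  push_cast
  rw [← Real.rpow_natCast (m : ℝ) 3, ← Real.rpow_mul (by positivity)]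
  congr 1
  push_cast
  ring

end S25

open S25

open Classical in
/-- Row PR2. -/
theorem st_PR2 : ST_PR2 := by
  intro K ε hε
  have hMM := MM_pos
  obtain ⟨M, hM⟩ : ∃ M : ℕ, (M : ℤ) = 14 * (20 + MM) ^ 2 :=
    ⟨(14 * (20 + MM) ^ 2).toNat, Int.toNat_of_nonneg (mul_nonneg (by norm_num) (sq_nonneg _))⟩
  obtain ⟨K1, hK1, hrep⟩ := Pool.Helper34.R9.S34.rep_count
    (α := (Fin 4 → ℕ) × (Fin 4 → ℕ)) 10 (by norm_num) (ε / 3) (by positivity) M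
  refine ⟨K1 * (2 * |(K : ℝ)| + 1) + 1, by positivity, fun m hm => ?_⟩
  set P4 := (Fintype.piFinset fun _ : Fin 4 => Finset.range (m ^ 3)) with hP4
  set I := Finset.Icc (-(K * (m : ℤ) ^ 2)) (K * (m : ℤ) ^ 2) with hI
  set R := (Finset.range (m ^ 3) ×ˢ Finset.range (m ^ 3)) with hR
  set S := (P4 ×ˢ P4).filter (fun p => |e2 (uu p.1) - e2 (uu p.2)| ≤ K * (m : ℤ) ^ 2) with hS
  set key : (Fin 4 → ℕ) × (Fin 4 → ℕ) → (Fin 4 → ℕ) × ((ℕ × ℕ) × ℤ) :=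
    fun p => (p.2, ((p.1 2, p.1 3), e2 (uu p.1) - e2 (uu p.2))) with hkey
  have hmem : ∀ p ∈ S, (∀ i, p.1 i < m ^ 3) ∧ (∀ i, p.2 i < m ^ 3) ∧
      |e2 (uu p.1) - e2 (uu p.2)| ≤ K * (m : ℤ) ^ 2 := by
    intro p hp
    rw [hS, Finset.mem_filter, Finset.mem_product] at hp
    refine ⟨fun i => ?_, fun i => ?_, hp.2⟩
    · exact Finset.mem_range.1 (Fintype.mem_piFinset.1 hp.1.1 i)
    · exact Finset.mem_range.1 (Fintype.mem_piFinset.1 hp.1.2 i)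
  have hmaps : ∀ p ∈ S, key p ∈ P4 ×ˢ (R ×ˢ I) := by
    intro p hp
    obtain ⟨h1, h2, h3⟩ := hmem p hp
    rw [Finset.mem_product, Finset.mem_product]
    refine ⟨?_, ?_, ?_⟩
    · exact Fintype.mem_piFinset.2 fun i => Finset.mem_range.2 (h2 i)
    · rw [hR, Finset.mem_product]
      exact ⟨Finset.mem_range.2 (h1 2), Finset.mem_range.2 (h1 3)⟩
    · rw [hI, Finset.mem_Icc]
      exact abs_le.1 h3
  have hfib : ∀ k ∈ P4 ×ˢ (R ×ˢ I),
      ((S.filter fun p => key p = k).card : ℝ) ≤ K1 * (m : ℝ) ^ ε := by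
    intro k _
    rcases (S.filter fun p => key p = k).eq_empty_or_nonempty with hE | ⟨p0, hp0⟩
    · rw [hE, Finset.card_empty]
      push_cast
      positivity
    set f : (Fin 4 → ℕ) × (Fin 4 → ℕ) → ℤ × ℤ := fun p => (2 * uu p.1 0, uu p.1 1) with hf
    have hsame : ∀ p ∈ S.filter (fun p => key p = k), p.2 = p0.2 ∧ p.1 2 = p0.1 2 ∧
        p.1 3 = p0.1 3 ∧ e2 (uu p.1) = e2 (uu p0.1) := by
      intro p hp
      have h1 := (Finset.mem_filter.1 hp).2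
      have h2 := (Finset.mem_filter.1 hp0).2
      have h3 : key p = key p0 := h1.trans h2.symm
      simp only [hkey, Prod.mk.injEq] at h3
      obtain ⟨h4, ⟨h5, h5'⟩, h6⟩ := h3
      rw [h4] at h6
      exact ⟨h4, h5, h5', by linarith⟩
    have hu : ∀ p ∈ S.filter (fun p => key p = k), uu p.1 2 = uu p0.1 2 ∧
        uu p.1 3 = uu p0.1 3 := by
      intro p hp
      obtain ⟨-, e0, e1, -⟩ := hsame p hp
      unfold uu
      rw [e0, e1]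
      exact ⟨rfl, rfl⟩
    rw [← rpow_third m ε]
    refine hrep (m ^ 3) (Nat.one_le_pow _ _ hm) _ f
      ((f p0).1 ^ 2 + ((10 : ℕ) : ℤ) * (f p0).2 ^ 2) ?_ ?_ ?_
    · intro p hp q hq h
      obtain ⟨a1, a2, a3, -⟩ := hsame p hp
      obtain ⟨b1, b2, b3, -⟩ := hsame q hq
      simp only [hf, Prod.mk.injEq] at h
      obtain ⟨h1, h2⟩ := h
      have h5 : uu p.1 0 = uu q.1 0 := by linarith
      have g0 : p.1 0 = q.1 0 := by
        unfold uu at h5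
        have := mul_left_cancel₀ hMM.ne' (add_left_cancel h5)
        exact_mod_cast this
      have g1 : p.1 1 = q.1 1 := by
        unfold uu at h2
        have := mul_left_cancel₀ hMM.ne' (add_left_cancel h2)
        exact_mod_cast this
      refine Prod.ext ?_ (a1.trans b1.symm)
      funext i
      fin_cases i
      · exact g0
      · exact g1
      · exact a2.trans b2.symm
      · exact a3.trans b3.symm
    · intro p hp
      obtain ⟨c0, c1⟩ := hu p hp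
      obtain ⟨-, -, -, he⟩ := hsame p hp
      have h1 := e2_form (uu p.1)
      have h2 := e2_form (uu p0.1)
      simp only [hf]
      push_cast
      rw [h1, h2, c0, c1, he]
    · have hp0' := hmem p0 (Finset.mem_filter.1 hp0).1
      have hbd := uu_bound m hm p0.1 hp0'.1
      simp only [hf]
      push_cast
      exact sq_bound _ _ _ _ _ (hbd 0) (hbd 1) hM
  have hcard : (S.card : ℝ) ≤ ((P4 ×ˢ (R ×ˢ I)).card : ℝ) * (K1 * (m : ℝ) ^ ε) := by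
    rw [Finset.card_eq_sum_card_fiberwise (f := key) (t := P4 ×ˢ (R ×ˢ I))
      (fun p hp => hmaps p hp)]
    push_cast
    refine (Finset.sum_le_sum hfib).trans ?_
    rw [Finset.sum_const, nsmul_eq_mul]
  have hm0 : (0 : ℝ) < m := by exact_mod_cast hm
  have hm1 : (1 : ℝ) ≤ m := by exact_mod_cast hm
  have hIc : (I.card : ℝ) ≤ (2 * |(K : ℝ)| + 1) * (m : ℝ) ^ 2 := icc_bound K m hm
  have hkeys : ((P4 ×ˢ (R ×ˢ I)).card : ℝ) ≤ (2 * |(K : ℝ)| + 1) * (m : ℝ) ^ 20 := by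
    rw [Finset.card_product, Finset.card_product, hR, Finset.card_product, hP4,
      Fintype.card_piFinset]
    simp only [Finset.card_range, Finset.prod_const, Finset.card_univ, Fintype.card_fin]
    push_cast
    have h1 : ((m : ℝ) ^ 3) ^ 4 * ((m : ℝ) ^ 3 * (m : ℝ) ^ 3 * (I.card : ℝ)) =
        (m : ℝ) ^ 18 * (I.card : ℝ) := by ring
    rw [h1]
    calc (m : ℝ) ^ 18 * (I.card : ℝ) ≤ (m : ℝ) ^ 18 * ((2 * |(K : ℝ)| + 1) * (m : ℝ) ^ 2) :=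
          mul_le_mul_of_nonneg_left hIc (by positivity)
      _ = (2 * |(K : ℝ)| + 1) * (m : ℝ) ^ 20 := by ring
  have hpow : (m : ℝ) ^ (20 + ε) = (m : ℝ) ^ 20 * (m : ℝ) ^ ε := by
    rw [Real.rpow_add hm0]
    norm_num
  rw [hpow]
  have hz : (0 : ℝ) ≤ (m : ℝ) ^ 20 * (m : ℝ) ^ ε := by positivity
  have h9 := mul_le_mul_of_nonneg_right hkeys
    (by positivity : (0 : ℝ) ≤ K1 * (m : ℝ) ^ ε)
  have hfin : (2 * |(K : ℝ)| + 1) * (m : ℝ) ^ 20 * (K1 * (m : ℝ) ^ ε) =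
      K1 * (2 * |(K : ℝ)| + 1) * ((m : ℝ) ^ 20 * (m : ℝ) ^ ε) := by ring
  rw [hfin] at h9
  have hlast : (K1 * (2 * |(K : ℝ)| + 1) + 1) * ((m : ℝ) ^ 20 * (m : ℝ) ^ ε) =
      K1 * (2 * |(K : ℝ)| + 1) * ((m : ℝ) ^ 20 * (m : ℝ) ^ ε) +
        (m : ℝ) ^ 20 * (m : ℝ) ^ ε := by ring
  rw [hlast]
  linarith

end Pool.Helper70.RN
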